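import Mathlib
import Pool.Agent.H729.TCube
import Pool.Graph.R_seed8.H69R3.Extendial

/-!
Question Q2 of MP_a58584_gt (Arhangel'skii 1992), answered in the affirmative.

`C_p(X)` is the type of continuous functions `X → ℝ` with the topology of pointwise convergence, that
is, the subspace topology inherited from the product `X → ℝ`.  `X` is t-extral: for every Tychonoff
space `Z` and every closed embedding `e : X → Z` there is a continuous map `φ : C_p(X) → C_p(Z)` with
`φ(f) ∘ e = f` for all `f`.  The conclusion: if such a space `X` is not metrizable, then the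
Tychonoff cube of weight `ω₁` embeds in `X`.
-/

set_option autoImplicit false

universe u v

namespace Pool.Agent.Results.MP_a58584_gt.TychonoffCube

/-- Every non-metrizable t-extral Tychonoff space contains a copy of the Tychonoff cube
`[0,1]^ω₁`. -/
theorem result :
    ∀ (X : Type u) [TopologicalSpace X] [T35Space X],
      (∀ (Z : Type u) [TopologicalSpace Z] [T35Space Z] (e : X → Z),
        Topology.IsClosedEmbedding e →
        ∃ φ : {f : X → ℝ // Continuous f} → {g : Z → ℝ // Continuous g},
          Continuous φ ∧ ∀ (f : {f : X → ℝ // Continuous f}) (x : X), (φ f).1 (e x) = f.1 x) →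
      ¬ TopologicalSpace.MetrizableSpace X →
      ∀ (I : Type v), Cardinal.mk I = Cardinal.aleph 1 →
        ∃ h : (I → unitInterval) → X, Topology.IsEmbedding h := by
  classical
  intro X _ _ hext hnm I hI
  by_contra hno
  -- `X` is t-extral
  have hX : Pool.Agent.H69R3.TExtral X := by
    rintro Y _ _ A hA ⟨H⟩
    obtain ⟨φ, hφ, hφe⟩ := hext Y (fun x => (H x : Y))
      (hA.isClosedEmbedding_subtypeVal.comp H.isClosedEmbedding)
    refine ⟨fun f => φ ⟨fun x => f.1 (H x), f.2.comp H.continuous⟩, ?_, ?_⟩
    · refine hφ.comp (Continuous.subtype_mk (continuous_pi fun x => ?_) _)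
      exact (continuous_apply (H x)).comp continuous_subtype_val
    · intro f a
      have h1 := hφe ⟨fun x => f.1 (H x), f.2.comp H.continuous⟩ (H.symm a)
      simp only [Homeomorph.apply_symm_apply] at h1
      exact h1
  obtain ⟨hc, κ, e, ψ, he, hψ, hψe⟩ := Pool.Agent.H69R3.extral_cube hX
  apply hnm
  refine Pool.Agent.H729.metrizable_of_cubeI ?_ e he ψ hψ hψe
  -- an injective continuous image of an uncountable Tychonoff cube gives the embedding
  intro S _ g hg hinj
  apply hno
  have h3 : Cardinal.lift.{u} (Cardinal.mk I) ≤ Cardinal.lift.{v} (Cardinal.mk S) := by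
    rw [hI, Cardinal.lift_aleph]
    simp only [Ordinal.lift_one]
    rw [Cardinal.aleph_one_le_iff, Cardinal.aleph0_lt_lift]
    exact Cardinal.aleph0_lt_mk_iff.2 inferInstance
  obtain ⟨ι⟩ := Cardinal.lift_mk_le'.1 h3
  have hq : Continuous fun (d : I → unitInterval) (s : S) =>
      if hs : ∃ i, ι i = s then d hs.choose else 0 := by
    apply continuous_pi
    intro s
    by_cases hs : ∃ i, ι i = s
    · simp only [hs, dif_pos]
      exact continuous_apply _
    · simp only [hs, dif_neg, not_false_eq_true]
      exact continuous_const
  have hqi : Function.Injective fun (d : I → unitInterval) (s : S) =>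
      if hs : ∃ i, ι i = s then d hs.choose else 0 := by
    intro d d' hdd
    funext i
    have h4 := congrFun hdd (ι i)
    have hs : ∃ i', ι i' = ι i := ⟨i, rfl⟩
    simp only [hs, dif_pos] at h4
    have h5 : hs.choose = i := ι.injective hs.choose_spec
    rwa [h5] at h4
  exact ⟨_, ((hg.comp hq).isClosedEmbedding (hinj.comp hqi)).isEmbedding⟩

end Pool.Agent.Results.MP_a58584_gt.TychonoffCube
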